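import Pool.Agent.P8H14.GL.Stm
import Pool.Agent.Erdos456.Mertens

/-!
Package GRHO of the project GL: the number of solutions of `f = -A` modulo `j` on average.
-/

set_option autoImplicit false

open Finset

namespace Pool.Agent.P8H4.GL

open Pool.Agent.P8H14.GL

theorem dvd_of_mod (f : Polynomial ℤ) (A : ℤ) {m b c : ℕ} (h : b ≡ c [MOD m])
    (hb : (m : ℤ) ∣ Fv f b + A) : (m : ℤ) ∣ Fv f c + A := by
  have h1 : (m : ℤ) ∣ (c : ℤ) - b := Nat.modEq_iff_dvd.1 h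
  have h2 : (c : ℤ) - b ∣ Fv f c - Fv f b := Polynomial.sub_dvd_eval_sub _ _ _
  have h3 := dvd_add hb (h1.trans h2)
  have h4 : Fv f b + A + (Fv f c - Fv f b) = Fv f c + A := by ring
  rwa [h4] at h3

theorem rho_mul (f : Polynomial ℤ) (A : ℤ) {m n : ℕ} (h : m.Coprime n) :
    rho f A (m * n) = rho f A m * rho f A n := by
  rcases Nat.eq_zero_or_pos m with rfl | hm
  · simp [rho]
  rcases Nat.eq_zero_or_pos n with rfl | hn
  · simp [rho]
  unfold rho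
  rw [← Finset.card_product]
  refine Finset.card_nbij' (fun b => (b % m, b % n))
    (fun c => (Nat.chineseRemainder h c.1 c.2 : ℕ)) ?_ ?_ ?_ ?_
  · intro b hb
    rw [Finset.mem_coe, mem_filter, mem_range] at hb
    rw [Finset.mem_coe, mem_product, mem_filter, mem_filter, mem_range, mem_range]
    have h1 : (m : ℤ) ∣ Fv f b + A := (by exact_mod_cast Dvd.intro _ rfl : (m : ℤ) ∣ (m * n : ℕ)).trans hb.2
    have h2 : (n : ℤ) ∣ Fv f b + A :=
      (by exact_mod_cast Dvd.intro_left _ rfl : (n : ℤ) ∣ (m * n : ℕ)).trans hb.2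
    exact ⟨⟨Nat.mod_lt _ hm, dvd_of_mod f A (Nat.mod_modEq b m).symm h1⟩,
      ⟨Nat.mod_lt _ hn, dvd_of_mod f A (Nat.mod_modEq b n).symm h2⟩⟩
  · rintro ⟨x, y⟩ hc
    rw [Finset.mem_coe, mem_product, mem_filter, mem_filter, mem_range, mem_range] at hc
    rw [Finset.mem_coe, mem_filter, mem_range]
    obtain ⟨⟨-, h1⟩, ⟨-, h2⟩⟩ := hc
    refine ⟨Nat.chineseRemainder_lt_mul h x y hm.ne' hn.ne', ?_⟩
    push_cast
    refine IsCoprime.mul_dvd (Nat.isCoprime_iff_coprime.2 h) ?_ ?_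
    · exact dvd_of_mod f A (Nat.chineseRemainder h x y).2.1.symm h1
    · exact dvd_of_mod f A (Nat.chineseRemainder h x y).2.2.symm h2
  · intro b hb
    rw [Finset.mem_coe, mem_filter, mem_range] at hb
    have h1 := Nat.chineseRemainder_modEq_unique h (Nat.mod_modEq b m).symm (Nat.mod_modEq b n).symm
    exact (Nat.ModEq.eq_of_lt_of_lt h1 hb.1
      (Nat.chineseRemainder_lt_mul h _ _ hm.ne' hn.ne')).symm
  · rintro ⟨x, y⟩ hc
    rw [Finset.mem_coe, mem_product, mem_filter, mem_filter, mem_range, mem_range] at hc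
    obtain ⟨⟨h1, -⟩, ⟨h2, -⟩⟩ := hc
    have h3 : (Nat.chineseRemainder h x y : ℕ) % m = x % m := (Nat.chineseRemainder h x y).2.1
    have h4 : (Nat.chineseRemainder h x y : ℕ) % n = y % n := (Nat.chineseRemainder h x y).2.2
    rw [Nat.mod_eq_of_lt h1] at h3
    rw [Nat.mod_eq_of_lt h2] at h4
    exact Prod.ext h3 h4

theorem norm_ge_of_not_dvd {p : ℕ} [hp : Fact p.Prime] {s : ℕ} {z : ℤ}
    (h : ¬ ((p ^ s : ℕ) : ℤ) ∣ z) : (p : ℚ) ^ (-((s : ℤ) - 1)) ≤ padicNorm p z := by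
  have hz : (z : ℚ) ≠ 0 := by
    intro h0
    have : z = 0 := by exact_mod_cast h0
    rw [this] at h
    exact h (dvd_zero _)
  have hp1 : (1 : ℚ) < p := by exact_mod_cast hp.1.one_lt
  by_contra hcon
  push Not at hcon
  apply h
  rw [padicNorm.dvd_iff_norm_le]
  rw [padicNorm.eq_zpow_of_nonzero hz] at hcon ⊢
  rw [zpow_lt_zpow_iff_right₀ hp1] at hcon
  rw [zpow_le_zpow_iff_right₀ hp1]
  omega

theorem key (f : Polynomial ℤ) (A : ℤ) (hd : 1 ≤ f.natDegree) {p : ℕ} (hp : p.Prime) {k s : ℕ}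
    (hs : 1 ≤ s) (hks : f.natDegree * (s - 1) ≤ k)
    (hn : ¬ ((p ^ (k - f.natDegree * (s - 1)) : ℕ) : ℤ) ∣ f.leadingCoeff)
    (T : Finset ℕ) (hT : T.card = f.natDegree + 1)
    (hT1 : ∀ b ∈ T, ((p ^ k : ℕ) : ℤ) ∣ Fv f b + A)
    (hT2 : ∀ b ∈ T, ∀ c ∈ T, b ≠ c → ¬ b ≡ c [MOD p ^ s]) : False := by
  have : Fact p.Prime := ⟨hp⟩
  have hp0 : (0 : ℚ) < p := by exact_mod_cast hp.pos
  obtain ⟨d, hdd⟩ : ∃ d, d = f.natDegree := ⟨_, rfl⟩
  rw [← hdd] at hd hks hn hT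
  have hdegf : f.degree = (d : WithBot ℕ) := by
    rw [hdd]
    exact Polynomial.degree_eq_natDegree (by
      rintro rfl
      simp at hdd
      omega)
  have hlt : (Polynomial.C A).degree < f.degree := by
    rw [hdegf]
    exact Polynomial.degree_C_le.trans_lt (by exact_mod_cast hd)
  have hdeg1 : (f + Polynomial.C A).degree = (d : WithBot ℕ) := by
    rw [Polynomial.degree_add_eq_left_of_degree_lt hlt, hdegf]
  have hlc1 : (f + Polynomial.C A).leadingCoeff = f.leadingCoeff :=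
    Polynomial.leadingCoeff_add_of_degree_lt' hlt
  obtain ⟨P, hP⟩ : ∃ P : Polynomial ℚ, P = (f + Polynomial.C A).map (Int.castRingHom ℚ) := ⟨_, rfl⟩
  have hinj : Function.Injective (Int.castRingHom ℚ) := Int.cast_injective
  have hPdeg : P.degree = (d : WithBot ℕ) := by
    rw [hP, Polynomial.degree_map_eq_of_injective hinj, hdeg1]
  have hPlc : P.leadingCoeff = (f.leadingCoeff : ℚ) := by
    rw [hP, Polynomial.leadingCoeff_map_of_injective hinj, hlc1]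
    rfl
  have hPev : ∀ b : ℕ, P.eval (b : ℚ) = ((Fv f b + A : ℤ) : ℚ) := by
    intro b
    rw [hP]
    have h1 : ((b : ℤ) : ℚ) = (b : ℚ) := by norm_cast
    have h2 := Polynomial.eval_map_apply (f := Int.castRingHom ℚ) (p := f + Polynomial.C A) (b : ℤ)
    rw [eq_intCast, h1] at h2
    rw [h2, Polynomial.eval_add, Polynomial.eval_C]
    rfl
  have hsum := Lagrange.leadingCoeff_eq_sum (s := T) (v := fun b : ℕ => (b : ℚ))
    (fun x _ y _ h => Nat.cast_injective h) (P := P) (by rw [hT, hPdeg]; norm_cast)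
  apply hn
  rw [padicNorm.dvd_iff_norm_le, ← hPlc, hsum]
  refine padicNorm.sum_le' ?_ (by positivity)
  intro b hb
  rw [padicNorm.div]
  have h1 : padicNorm p (P.eval (b : ℚ)) ≤ (p : ℚ) ^ (-(k : ℤ)) := by
    rw [hPev, ← padicNorm.dvd_iff_norm_le]
    exact hT1 b hb
  have h2 : (p : ℚ) ^ (-(((s : ℤ) - 1) * d)) ≤
      padicNorm p (∏ j ∈ T.erase b, ((b : ℚ) - (j : ℚ))) := by
    have h3 : padicNorm p (∏ j ∈ T.erase b, ((b : ℚ) - (j : ℚ))) =
        ∏ j ∈ T.erase b, padicNorm p ((b : ℚ) - (j : ℚ)) := by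
      induction T.erase b using Finset.induction_on with
      | empty => simp
      | insert x S hx ih => rw [prod_insert hx, prod_insert hx, padicNorm.mul, ih]
    rw [h3]
    have h4 : ∏ j ∈ T.erase b, (p : ℚ) ^ (-((s : ℤ) - 1)) ≤
        ∏ j ∈ T.erase b, padicNorm p ((b : ℚ) - (j : ℚ)) := by
      refine Finset.prod_le_prod (fun _ _ => by positivity) ?_
      intro j hj
      rw [mem_erase] at hj
      have h5 := norm_ge_of_not_dvd (p := p) (z := (b : ℤ) - j) (by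
        intro h6
        exact hT2 j hj.2 b hb hj.1 (Nat.modEq_iff_dvd.2 h6))
      push_cast at h5
      exact h5
    rw [Finset.prod_const, card_erase_of_mem hb, hT] at h4
    refine le_trans (le_of_eq ?_) h4
    rw [← zpow_natCast, ← zpow_mul]
    congr 1
    push_cast
    ring
  have h3 : (0 : ℚ) < (p : ℚ) ^ (-(((s : ℤ) - 1) * d)) := by positivity
  rw [div_le_iff₀ (h3.trans_le h2)]
  refine h1.trans ?_
  have h4 : (p : ℚ) ^ (-((k - d * (s - 1) : ℕ) : ℤ)) * (p : ℚ) ^ (-(((s : ℤ) - 1) * d)) =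
      (p : ℚ) ^ (-(k : ℤ)) := by
    rw [← zpow_add₀ hp0.ne']
    congr 1
    have h5 : ((k - d * (s - 1) : ℕ) : ℤ) = (k : ℤ) - d * ((s : ℤ) - 1) := by
      rw [Nat.cast_sub hks, Nat.cast_mul, Nat.cast_sub hs]
      norm_num
    rw [h5]
    ring
  rw [← h4]
  gcongr

theorem rho_pp (f : Polynomial ℤ) (A : ℤ) (hd : 1 ≤ f.natDegree) {p : ℕ} (hp : p.Prime) {k s : ℕ}
    (hs : 1 ≤ s) (hsk : s ≤ k) (hks : f.natDegree * (s - 1) ≤ k)
    (hn : ¬ ((p ^ (k - f.natDegree * (s - 1)) : ℕ) : ℤ) ∣ f.leadingCoeff) :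
    rho f A (p ^ k) ≤ p ^ (k - s) * f.natDegree := by
  unfold rho
  obtain ⟨Sol, hSol⟩ : ∃ S : Finset ℕ, S = (range (p ^ k)).filter
    (fun b => ((p ^ k : ℕ) : ℤ) ∣ Fv f b + A) := ⟨_, rfl⟩
  rw [← hSol]
  have hps : 0 < p ^ s := pow_pos hp.pos _
  have h1 := Finset.card_le_mul_card_image (f := fun b => b % p ^ s) Sol (p ^ (k - s)) (by
    intro a _
    refine (Finset.card_le_card_of_injOn (t := range (p ^ (k - s))) (fun x => x / p ^ s) ?_ ?_).trans
      (le_of_eq (card_range _))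
    · intro x hx
      rw [Finset.mem_coe, mem_filter, hSol, mem_filter, mem_range] at hx
      rw [Finset.mem_coe, mem_range]
      apply Nat.div_lt_of_lt_mul
      rw [← pow_add, Nat.add_sub_cancel' hsk]
      exact hx.1.1
    · intro x hx y hy hxy
      rw [Finset.mem_coe, mem_filter] at hx hy
      have h2 := Nat.div_add_mod x (p ^ s)
      have h3 := Nat.div_add_mod y (p ^ s)
      have hxy' : x / p ^ s = y / p ^ s := hxy
      rw [← h2, ← h3, hxy', hx.2, hy.2])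
  refine h1.trans (Nat.mul_le_mul_left _ ?_)
  by_contra hcon
  push Not at hcon
  obtain ⟨T', hT', hcard⟩ := Finset.exists_subset_card_eq hcon
  have hch : ∀ c ∈ T', ∃ b ∈ Sol, b % p ^ s = c := fun c hc => by
    obtain ⟨b, hb, h⟩ := mem_image.1 (hT' hc)
    exact ⟨b, hb, h⟩
  choose! g hg1 hg2 using hch
  have hginj : Set.InjOn g T' := fun c hc c' hc' h => by
    rw [← hg2 c hc, ← hg2 c' hc', h]
  refine key f A hd hp hs hks hn (T'.image g) ?_ ?_ ?_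
  · rw [Finset.card_image_of_injOn hginj, hcard]
  · intro b hb
    obtain ⟨c, hc, rfl⟩ := mem_image.1 hb
    have := hg1 c hc
    rw [hSol, mem_filter] at this
    exact this.2
  · intro b hb b' hb' hne h
    obtain ⟨c, hc, rfl⟩ := mem_image.1 hb
    obtain ⟨c', hc', rfl⟩ := mem_image.1 hb'
    apply hne
    have h2 : g c % p ^ s = g c' % p ^ s := h
    rw [hg2 c hc, hg2 c' hc'] at h2
    rw [h2]

theorem ceil_facts {d m : ℕ} (hd : 1 ≤ d) :
    m ≤ d * ((m + d - 1) / d) ∧ (1 ≤ (m + d - 1) / d → d * ((m + d - 1) / d - 1) < m) ∧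
      (m + d - 1) / d ≤ m ∧ (1 ≤ m → 1 ≤ (m + d - 1) / d) := by
  have h1 := Nat.div_add_mod (m + d - 1) d
  have h2 := Nat.mod_lt (m + d - 1) (by omega : d > 0)
  obtain ⟨s, hs⟩ : ∃ s, s = (m + d - 1) / d := ⟨_, rfl⟩
  rw [← hs] at h1 ⊢
  obtain ⟨t, ht⟩ : ∃ t, t = (m + d - 1) % d := ⟨_, rfl⟩
  rw [← ht] at h1 h2
  have h3 : m ≤ d * s := by omega
  have h4 : 1 ≤ s → d * (s - 1) < m := by
    intro h
    have h5 : d * (s - 1) = d * s - d := by rw [Nat.mul_sub, mul_one]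
    have h6 : d ≤ d * s := Nat.le_mul_of_pos_right _ h
    omega
  refine ⟨h3, h4, ?_, ?_⟩
  · rcases Nat.eq_zero_or_pos s with h | h
    · omega
    · have h6 := h4 h
      have h7 : s - 1 ≤ d * (s - 1) := Nat.le_mul_of_pos_left _ hd
      omega
  · intro h
    by_contra h8
    have h9 : s = 0 := by omega
    rw [h9] at h3
    omega

theorem rho_unif (f : Polynomial ℤ) (hd : 1 ≤ f.natDegree) {θ : ℝ} (hθ0 : 0 < θ) (hθ1 : θ ≤ 1)
    (hθ : θ ^ f.natDegree = 1 / 2) (A : ℤ) {p : ℕ} (hp : p.Prime) {k : ℕ} (hk : 1 ≤ k) :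
    (rho f A (p ^ k) : ℝ) / (p ^ k : ℕ) ≤
      (2 * f.natDegree * (f.leadingCoeff.natAbs : ℝ) ^ 2) * (1 / p) * θ ^ k := by
  have : Fact p.Prime := ⟨hp⟩
  obtain ⟨a, ha⟩ : ∃ a, a = f.leadingCoeff.natAbs := ⟨_, rfl⟩
  obtain ⟨d, hdd⟩ : ∃ d, d = f.natDegree := ⟨_, rfl⟩
  have ha0 : a ≠ 0 := by
    rw [ha]
    intro h
    rw [Int.natAbs_eq_zero, Polynomial.leadingCoeff_eq_zero] at h
    rw [h] at hd
    simp at hd
  have ha1 : (1 : ℝ) ≤ a := by exact_mod_cast Nat.one_le_iff_ne_zero.2 ha0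
  obtain ⟨v, hv⟩ : ∃ v, v = padicValNat p a := ⟨_, rfl⟩
  have hv1 : p ^ v ∣ a := by rw [hv]; exact pow_padicValNat_dvd
  have hv2 : ¬ p ^ (v + 1) ∣ a := by rw [hv]; exact pow_succ_padicValNat_not_dvd ha0
  have hva : p ^ v ≤ a := Nat.le_of_dvd (Nat.pos_of_ne_zero ha0) hv1
  obtain ⟨h1, h2, h3, h4⟩ := ceil_facts (m := k - v) (by rw [hdd]; exact hd : 1 ≤ d)
  obtain ⟨s, hs⟩ : ∃ s, s = (k - v + d - 1) / d := ⟨_, rfl⟩
  rw [← hs] at h1 h2 h3 h4
  have hsk : s ≤ k := by omega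
  have hp0 : (0 : ℝ) < p := by exact_mod_cast hp.pos
  have hp2 : (2 : ℝ) ≤ p := by exact_mod_cast hp.two_le
  have hrho : rho f A (p ^ k) ≤ p ^ (k - s) * d := by
    rcases Nat.eq_zero_or_pos s with h0 | h0
    · rw [h0, Nat.sub_zero]
      have h5 : rho f A (p ^ k) ≤ p ^ k := (card_filter_le _ _).trans (le_of_eq (card_range _))
      refine h5.trans (Nat.le_mul_of_pos_right _ ?_)
      rw [hdd]
      exact hd
    · have h5 := h2 h0
      rw [hdd]
      refine rho_pp f A hd hp h0 hsk (by rw [← hdd]; omega) ?_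
      rw [← hdd]
      intro h6
      apply hv2
      have h7 : ((p ^ (v + 1) : ℕ) : ℤ) ∣ f.leadingCoeff := by
        refine dvd_trans ?_ h6
        exact_mod_cast Nat.pow_dvd_pow p (by omega)
      rw [ha]
      exact Int.natCast_dvd.1 h7
  have h5 : (rho f A (p ^ k) : ℝ) / (p ^ k : ℕ) ≤ d * (1 / (p : ℝ) ^ s) := by
    rw [div_le_iff₀ (by exact_mod_cast pow_pos hp.pos k)]
    have h6 : (rho f A (p ^ k) : ℝ) ≤ (p : ℝ) ^ (k - s) * d := by exact_mod_cast hrho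
    refine h6.trans (le_of_eq ?_)
    have h7 : ((p ^ k : ℕ) : ℝ) = (p : ℝ) ^ (k - s) * (p : ℝ) ^ s := by
      push_cast
      rw [← pow_add, Nat.sub_add_cancel hsk]
    rw [h7]
    field_simp
  -- the bound for `1 / p ^ s`
  have h6 : (1 / 2 : ℝ) ^ s ≤ a * θ ^ k := by
    have h7 : (1 / 2 : ℝ) ^ s = θ ^ (d * s) := by
      rw [pow_mul, hdd, hθ]
    have h8 : θ ^ (d * s) ≤ θ ^ (k - v) := pow_le_pow_of_le_one hθ0.le hθ1 h1
    have h9 : θ ^ (k - v) * θ ^ v ≤ θ ^ k := by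
      rw [← pow_add]
      exact pow_le_pow_of_le_one hθ0.le hθ1 (by omega)
    have h10 : (1 / 2 : ℝ) ≤ θ := by
      rw [← hθ]
      exact pow_le_of_le_one hθ0.le hθ1 (by omega)
    have h11 : (1 / 2 : ℝ) ^ v ≤ θ ^ v := by gcongr
    have h12 : (2 : ℝ) ^ v ≤ a := by
      have : 2 ^ v ≤ a := (Nat.pow_le_pow_left hp.two_le v).trans hva
      exact_mod_cast this
    have h13 : 1 ≤ a * θ ^ v := by
      have h14 : (2 : ℝ) ^ v * (1 / 2 : ℝ) ^ v = 1 := by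
        rw [← mul_pow]
        norm_num
      rw [← h14]
      gcongr
    have h15 : 0 < θ ^ (k - v) := by positivity
    rw [h7]
    calc θ ^ (d * s) ≤ θ ^ (k - v) * 1 := by rw [mul_one]; exact h8
      _ ≤ θ ^ (k - v) * (a * θ ^ v) := by gcongr
      _ = a * (θ ^ (k - v) * θ ^ v) := by ring
      _ ≤ a * θ ^ k := by gcongr
  have h16 : 1 / (p : ℝ) ^ s ≤ 2 * a ^ 2 * (1 / p) * θ ^ k := by
    have hθk : 0 < θ ^ k := by positivity
    rcases Nat.eq_zero_or_pos v with hv0 | hv0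
    · have hs1 : 1 ≤ s := h4 (by omega)
      have h7 : 1 / (p : ℝ) ^ s = 1 / p * (1 / p) ^ (s - 1) := by
        rw [← pow_succ', Nat.sub_add_cancel hs1, one_div_pow]
      have h8 : (1 / (p : ℝ)) ^ (s - 1) ≤ (1 / 2) ^ (s - 1) := by gcongr
      have h9 : (1 / 2 : ℝ) ^ (s - 1) = 2 * (1 / 2) ^ s := by
        obtain ⟨s', rfl⟩ : ∃ s', s = s' + 1 := ⟨s - 1, by omega⟩
        rw [Nat.add_sub_cancel, pow_succ]
        ring
      rw [h7]
      calc 1 / (p : ℝ) * (1 / p) ^ (s - 1) ≤ 1 / p * (2 * (a * θ ^ k)) := by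
            gcongr
            rw [h9] at h8
            linarith
        _ = 2 * a * (1 / p) * θ ^ k := by ring
        _ ≤ 2 * a ^ 2 * (1 / p) * θ ^ k := by
            gcongr
            nlinarith
    · have h7 : (p : ℝ) ≤ a := by
        have : p ^ 1 ≤ p ^ v := Nat.pow_le_pow_right hp.pos hv0
        rw [pow_one] at this
        exact_mod_cast this.trans hva
      have h8 : 1 / (p : ℝ) ^ s ≤ (1 / 2) ^ s := by
        rw [← one_div_pow]
        gcongr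
      have h9 : (1 : ℝ) ≤ a * (1 / p) := by
        rw [mul_one_div, le_div_iff₀ hp0]
        linarith
      calc 1 / (p : ℝ) ^ s ≤ a * θ ^ k := h8.trans h6
        _ ≤ (a * (1 / p)) * (a * θ ^ k) := by
            have : 0 ≤ a * θ ^ k := by positivity
            nlinarith
        _ ≤ 2 * a ^ 2 * (1 / p) * θ ^ k := by
            have : 0 ≤ (a : ℝ) ^ 2 * (1 / p) * θ ^ k := by positivity
            nlinarith
  calc (rho f A (p ^ k) : ℝ) / (p ^ k : ℕ) ≤ d * (1 / (p : ℝ) ^ s) := h5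
    _ ≤ d * (2 * a ^ 2 * (1 / p) * θ ^ k) := by gcongr
    _ = _ := by rw [hdd, ha]; ring

/-- the summand -/
noncomputable def gg (f : Polynomial ℤ) (A : ℤ) (j : ℕ) : ℝ :=
  ((j.divisors.card : ℝ) * rho f A j) / j

theorem gg_nonneg (f : Polynomial ℤ) (A : ℤ) (j : ℕ) : 0 ≤ gg f A j := by
  unfold gg
  positivity

theorem gg_one (f : Polynomial ℤ) (A : ℤ) : gg f A 1 = 1 := by
  unfold gg rho
  simp

theorem gg_mul (f : Polynomial ℤ) (A : ℤ) {m n : ℕ} (h : m.Coprime n) :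
    gg f A (m * n) = gg f A m * gg f A n := by
  unfold gg
  rw [rho_mul f A h, h.card_divisors_mul]
  push_cast
  rw [div_mul_div_comm]
  congr 1
  ring

theorem gg_pp_le (f : Polynomial ℤ) (hd : 1 ≤ f.natDegree) {θ : ℝ} (hθ0 : 0 < θ) (hθ1 : θ ≤ 1)
    (hθ : θ ^ f.natDegree = 1 / 2) (A : ℤ) {p : ℕ} (hp : p.Prime) (k : ℕ) :
    gg f A (p ^ (k + 1)) ≤ (2 * f.natDegree * (f.leadingCoeff.natAbs : ℝ) ^ 2) * (1 / p) *
      ((((k + 1 : ℕ) : ℝ) + 1) * θ ^ (k + 1)) := by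
  unfold gg
  have h1 : (p ^ (k + 1)).divisors.card = k + 1 + 1 := by
    rw [Nat.divisors_prime_pow hp, card_map, card_range]
  have h2 := rho_unif f hd hθ0 hθ1 hθ A hp (Nat.le_add_left 1 k)
  rw [h1, mul_div_assoc]
  calc ((k + 1 + 1 : ℕ) : ℝ) * ((rho f A (p ^ (k + 1)) : ℝ) / (p ^ (k + 1) : ℕ)) ≤
      ((k + 1 + 1 : ℕ) : ℝ) * ((2 * f.natDegree * (f.leadingCoeff.natAbs : ℝ) ^ 2) * (1 / p) *
        θ ^ (k + 1)) := by gcongr
    _ = _ := by push_cast; ring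

theorem summable_h {θ : ℝ} (hθ0 : 0 < θ) (hθ1 : θ < 1) :
    Summable fun k : ℕ => ((((k + 1 : ℕ) : ℝ) + 1) * θ ^ (k + 1)) := by
  have h0 : ‖θ‖ < 1 := by rw [Real.norm_of_nonneg hθ0.le]; exact hθ1
  have h1 := summable_pow_mul_geometric_of_norm_lt_one 1 h0
  have h2 := summable_geometric_of_lt_one hθ0.le hθ1
  have h3 : Summable fun k : ℕ => ((k : ℝ) + 1) * θ ^ k := by
    refine (h1.add h2).congr fun k => ?_
    rw [pow_one]
    ring
  exact (summable_nat_add_iff 1).2 h3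

theorem prod_bound : ∃ M : ℝ, ∀ K Q : ℕ, 1 ≤ Q →
    ∏ p ∈ (Icc 1 Q).filter Nat.Prime, (1 + (K : ℝ) * (1 / p)) ≤
      Real.exp (K * M) * (2 * (1 + Real.log Q)) ^ K := by
  obtain ⟨M, hM⟩ := Pool.Agent.Erdos456.Mert.mertens_inv
  refine ⟨M, fun K Q hQ => ?_⟩
  have hQ' : (1 : ℝ) ≤ Q := by exact_mod_cast hQ
  have h1 : ∏ p ∈ (Icc 1 Q).filter Nat.Prime, (1 + (K : ℝ) * (1 / p)) ≤
      Real.exp (K * ∑ p ∈ (Icc 1 Q).filter Nat.Prime, (1 : ℝ) / p) := by
    rw [Finset.mul_sum, Real.exp_sum]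
    refine Finset.prod_le_prod (fun p _ => by positivity) fun p _ => ?_
    rw [add_comm]
    exact Real.add_one_le_exp _
  have h2 : ∑ p ∈ (Icc 1 Q).filter Nat.Prime, (1 : ℝ) / p ≤
      ∑ p ∈ (Icc 1 (Q + 2)).filter Nat.Prime, (1 : ℝ) / p := by
    refine Finset.sum_le_sum_of_subset_of_nonneg ?_ fun p _ _ => by positivity
    exact Finset.filter_subset_filter _ (Icc_subset_Icc_right (by omega))
  have h3 := (abs_le.1 (hM (Q + 2) (by omega))).2
  have h4 : ∑ p ∈ (Icc 1 Q).filter Nat.Prime, (1 : ℝ) / p ≤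
      M + Real.log (Real.log ((Q + 2 : ℕ) : ℝ)) := by linarith
  have hlog : 0 < Real.log ((Q + 2 : ℕ) : ℝ) := Real.log_pos (by push_cast; linarith)
  have h5 : Real.log ((Q + 2 : ℕ) : ℝ) ≤ 2 * (1 + Real.log Q) := by
    have h6 : Real.log ((Q + 2 : ℕ) : ℝ) ≤ Real.log (3 * Q) :=
      Real.log_le_log (by positivity) (by push_cast; linarith)
    rw [Real.log_mul (by norm_num) (by positivity)] at h6
    have h7 : Real.log 3 ≤ 2 := by
      have := Real.log_le_sub_one_of_pos (by norm_num : (0 : ℝ) < 3)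
      linarith
    have h8 : 0 ≤ Real.log Q := Real.log_nonneg hQ'
    linarith
  calc ∏ p ∈ (Icc 1 Q).filter Nat.Prime, (1 + (K : ℝ) * (1 / p)) ≤
      Real.exp (K * ∑ p ∈ (Icc 1 Q).filter Nat.Prime, (1 : ℝ) / p) := h1
    _ ≤ Real.exp (K * (M + Real.log (Real.log ((Q + 2 : ℕ) : ℝ)))) := by
      apply Real.exp_le_exp.2
      gcongr
    _ = Real.exp (K * M) * (Real.log ((Q + 2 : ℕ) : ℝ)) ^ K := by
      rw [mul_add, Real.exp_add, Real.exp_nat_mul (Real.log (Real.log ((Q + 2 : ℕ) : ℝ))) K,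
        Real.exp_log hlog]
    _ ≤ _ := by gcongr

theorem grho : S_GRHO := by
  intro f hf
  have hd : 1 ≤ f.natDegree := by omega
  have hd0 : (f.natDegree : ℝ) ≠ 0 := by
    have : f.natDegree ≠ 0 := by omega
    exact_mod_cast this
  obtain ⟨θ, hθdef⟩ : ∃ θ : ℝ, θ = (1 / 2 : ℝ) ^ (1 / (f.natDegree : ℝ)) := ⟨_, rfl⟩
  have hθ0 : 0 < θ := by rw [hθdef]; positivity
  have hθ : θ ^ f.natDegree = 1 / 2 := by
    rw [hθdef, ← Real.rpow_natCast, ← Real.rpow_mul (by norm_num), one_div_mul_cancel hd0,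
      Real.rpow_one]
  have hθ1 : θ < 1 := by
    by_contra h
    push Not at h
    have := one_le_pow₀ h (n := f.natDegree)
    rw [hθ] at this
    norm_num at this
  obtain ⟨C1, hC1⟩ : ∃ C1 : ℝ, C1 = 2 * f.natDegree * (f.leadingCoeff.natAbs : ℝ) ^ 2 := ⟨_, rfl⟩
  have hC10 : 0 ≤ C1 := by rw [hC1]; positivity
  have hs := summable_h hθ0 hθ1
  obtain ⟨S, hS⟩ : ∃ S : ℝ, S = ∑' k : ℕ, ((((k + 1 : ℕ) : ℝ) + 1) * θ ^ (k + 1)) := ⟨_, rfl⟩
  obtain ⟨K, hK⟩ := exists_nat_ge (C1 * S)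
  obtain ⟨M, hM⟩ := prod_bound
  refine ⟨Real.exp (K * M) * 2 ^ K, by positivity, K, fun Q A hQ => ?_⟩
  have hsum : ∀ {p : ℕ}, p.Prime → Summable fun n : ℕ => gg f A (p ^ n) := by
    intro p hp
    refine (summable_nat_add_iff 1).1 ?_
    refine Summable.of_nonneg_of_le (fun k => gg_nonneg f A _) (fun k => ?_)
      (hs.mul_left (C1 * (1 / p)))
    rw [hC1]
    exact gg_pp_le f hd hθ0 hθ1.le hθ A hp k
  have hsum' : ∀ {p : ℕ}, p.Prime → Summable fun n : ℕ => ‖gg f A (p ^ n)‖ := by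
    intro p hp
    refine (hsum hp).congr fun n => ?_
    rw [Real.norm_of_nonneg (gg_nonneg f A _)]
  have hE := (EulerProduct.summable_and_hasSum_smoothNumbers_prod_primesBelow_tsum
    (gg_one f A) (fun h => gg_mul f A h) hsum' (Q + 1)).2
  have h1 : ∑ j ∈ Icc 1 Q, gg f A j ≤ ∏ p ∈ (Q + 1).primesBelow, ∑' n : ℕ, gg f A (p ^ n) := by
    have h2 : ∑ j ∈ (Icc 1 Q).subtype (fun j => j ∈ (Q + 1).smoothNumbers), gg f A j =
        ∑ j ∈ Icc 1 Q, gg f A j := by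
      rw [Finset.sum_subtype_of_mem (f := gg f A)]
      intro j hj
      rw [mem_Icc] at hj
      exact Nat.mem_smoothNumbers_of_lt hj.1 (by omega)
    rw [← h2]
    exact sum_le_hasSum _ (fun j _ => gg_nonneg f A _) hE
  have h3 : ∀ p ∈ (Q + 1).primesBelow, ∑' n : ℕ, gg f A (p ^ n) ≤ 1 + (K : ℝ) * (1 / p) := by
    intro p hp
    have hpp : p.Prime := Nat.prime_of_mem_primesBelow hp
    rw [(hsum hpp).tsum_eq_zero_add, pow_zero, gg_one]
    gcongr
    calc ∑' n : ℕ, gg f A (p ^ (n + 1)) ≤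
        ∑' n : ℕ, C1 * (1 / p) * ((((n + 1 : ℕ) : ℝ) + 1) * θ ^ (n + 1)) := by
          refine Summable.tsum_le_tsum (fun k => ?_) ((summable_nat_add_iff 1).2 (hsum hpp))
            (hs.mul_left _)
          rw [hC1]
          exact gg_pp_le f hd hθ0 hθ1.le hθ A hpp k
      _ = C1 * (1 / p) * S := by rw [tsum_mul_left, hS]
      _ = (C1 * S) * (1 / p) := by ring
      _ ≤ K * (1 / p) := by gcongr
  have h4 : (Q + 1).primesBelow = (Icc 1 Q).filter Nat.Prime := by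
    ext p
    rw [Nat.mem_primesBelow, mem_filter, mem_Icc]
    constructor
    · rintro ⟨h5, h6⟩
      exact ⟨⟨h6.one_lt.le, by omega⟩, h6⟩
    · rintro ⟨⟨_, h5⟩, h6⟩
      exact ⟨by omega, h6⟩
  calc ∑ j ∈ Icc 1 Q, ((j.divisors.card : ℝ) * rho f A j) / j = ∑ j ∈ Icc 1 Q, gg f A j := rfl
    _ ≤ ∏ p ∈ (Q + 1).primesBelow, ∑' n : ℕ, gg f A (p ^ n) := h1
    _ ≤ ∏ p ∈ (Q + 1).primesBelow, (1 + (K : ℝ) * (1 / p)) :=
      Finset.prod_le_prod (fun p _ => tsum_nonneg fun n => gg_nonneg f A _) h3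
    _ = ∏ p ∈ (Icc 1 Q).filter Nat.Prime, (1 + (K : ℝ) * (1 / p)) := by rw [h4]
    _ ≤ Real.exp (K * M) * (2 * (1 + Real.log Q)) ^ K := hM K Q hQ
    _ = _ := by rw [mul_pow]; ring

end Pool.Agent.P8H4.GL
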