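import Pool.Agent.P8H14.GL.Stm

/-!
Package GW of the project GL: translation.
-/

set_option autoImplicit false

open Finset

namespace Pool.Agent.P8H4.GL

open Pool.Agent.P8H14.GL
open Pool.Agent.P8H14.CF (e rr pr)

theorem e_add (x y : ℝ) : e (x + y) = e x * e y := by
  unfold e
  rw [← Complex.exp_add]
  congr 1
  push_cast
  ring

/-- the signed initial sums of `t` -/
noncomputable def Ini (t : ℤ → ℂ) (w : ℤ) : ℂ :=
  if 0 < w then ∑ m ∈ Icc 1 (w - 1).toNat, t (m : ℤ) else -∑ m ∈ Icc 1 (-w).toNat, t (-(m : ℤ))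

theorem Ini_step {t : ℤ → ℂ} (h0 : t 0 = 0) (w : ℤ) : Ini t (w + 1) = Ini t w + t w := by
  rcases lt_trichotomy w 0 with hw | hw | hw
  · unfold Ini
    rw [if_neg (by omega), if_neg (by omega)]
    obtain ⟨n, hn⟩ : ∃ n : ℕ, w = -((n : ℤ) + 1) := ⟨(-w - 1).toNat, by omega⟩
    have h1 : (-(w + 1)).toNat = n := by omega
    have h2 : (-w).toNat = n + 1 := by omega
    rw [h1, h2, Finset.sum_Icc_succ_top (by omega), hn]
    push_cast
    ring
  · subst hw
    unfold Ini
    rw [if_pos (by omega), if_neg (by omega), h0]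
    simp
  · unfold Ini
    rw [if_pos (by omega), if_pos hw]
    obtain ⟨n, hn⟩ : ∃ n : ℕ, w = (n : ℤ) + 1 := ⟨(w - 1).toNat, by omega⟩
    have h1 : (w + 1 - 1).toNat = n + 1 := by omega
    have h2 : (w - 1).toNat = n := by omega
    rw [h1, h2, Finset.sum_Icc_succ_top (by omega), hn]
    push_cast
    ring

theorem sum_Ico_int {t : ℤ → ℂ} (h0 : t 0 = 0) {u v : ℤ} (huv : u ≤ v) :
    ∑ m ∈ Ico u v, t m = Ini t v - Ini t u := by
  induction v, huv using Int.leInduction with
  | base => simp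
  | succ v huv ih =>
    have h1 : Ico u (v + 1) = insert v (Ico u v) := by
      ext x
      simp only [mem_Ico, mem_insert]
      omega
    rw [h1, sum_insert (by simp), ih, Ini_step h0]
    ring

theorem Li_zero : Li 0 = 0 := by
  unfold Li
  rw [if_pos rfl]

theorem Li_neg (m : ℤ) : Li (-m) = Li m := by
  unfold Li
  rw [Int.natAbs_neg]
  simp only [neg_eq_zero]

theorem gw : S_GW := by
  intro f Q M A W hW u v huv hu hv
  obtain ⟨t, ht⟩ : ∃ t : ℕ → ℕ → ℤ → ℂ, ∀ q a m, t q a m = (Li m : ℂ) * e (-((a : ℝ) * (m : ℤ) / q)) :=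
    ⟨fun q a m => (Li m : ℂ) * e (-((a : ℝ) * (m : ℤ) / q)), fun _ _ _ => rfl⟩
  have ht0 : ∀ q a, t q a 0 = 0 := fun q a => by
    rw [ht, Li_zero]
    simp
  have h1 : mj f Q Li A u v =
      ∑ q ∈ Icc 1 Q, ∑ a ∈ rr q, G f a q / q * e ((a : ℝ) * (A : ℤ) / q) * Ini (t q a) (v + A) -
      ∑ q ∈ Icc 1 Q, ∑ a ∈ rr q, G f a q / q * e ((a : ℝ) * (A : ℤ) / q) * Ini (t q a) (u + A) := by
    unfold mj
    rw [← Finset.sum_sub_distrib]
    refine Finset.sum_congr rfl fun q _ => ?_
    rw [← Finset.sum_sub_distrib]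
    refine Finset.sum_congr rfl fun a _ => ?_
    rw [← mul_sub, mul_assoc, ← sum_Ico_int (ht0 q a) (by linarith)]
    congr 1
    rw [Finset.mul_sum]
    refine Finset.sum_nbij (fun k => k + A) ?_ ?_ ?_ ?_
    · intro k hk
      rw [mem_Ico] at hk ⊢
      omega
    · intro k _ k' _ h
      exact add_right_cancel h
    · intro m hm
      rw [Finset.mem_coe, mem_Ico] at hm
      exact ⟨m - A, by rw [Finset.mem_coe, mem_Ico]; omega, by simp⟩
    · intro k _
      rw [ht]
      have h5 : e (-((a : ℝ) * (k : ℤ) / q)) =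
          e ((a : ℝ) * (A : ℤ) / q) * e (-((a : ℝ) * ((k + A : ℤ) : ℤ) / q)) := by
        rw [← e_add]
        congr 1
        push_cast
        ring
      rw [h5]
      ring
  have h2 : ∀ w : ℤ, |w| ≤ M →
      ‖∑ q ∈ Icc 1 Q, ∑ a ∈ rr q, G f a q / q * e ((a : ℝ) * (A : ℤ) / q) * Ini (t q a) w‖ ≤ W := by
    intro w hw
    rw [abs_le] at hw
    by_cases h : 0 < w
    · have h3 := hW (-1) (Or.inr rfl) (w - 1).toNat (by omega)
      refine le_trans (le_of_eq ?_) h3
      congr 1
      refine Finset.sum_congr rfl fun q _ => Finset.sum_congr rfl fun a _ => ?_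
      congr 1
      unfold Ini
      rw [if_pos h]
      refine Finset.sum_congr rfl fun m _ => ?_
      rw [ht]
      congr 2
      push_cast
      ring
    · have h3 := hW 1 (Or.inl rfl) (-w).toNat (by omega)
      rw [← norm_neg] at h3
      refine le_trans (le_of_eq ?_) h3
      congr 1
      rw [← Finset.sum_neg_distrib]
      refine Finset.sum_congr rfl fun q _ => ?_
      rw [← Finset.sum_neg_distrib]
      refine Finset.sum_congr rfl fun a _ => ?_
      rw [← mul_neg]
      congr 1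
      unfold Ini
      rw [if_neg h]
      congr 1
      refine Finset.sum_congr rfl fun m _ => ?_
      rw [ht, Li_neg]
      congr 2
      push_cast
      ring
  have hW0 : 0 ≤ W := (norm_nonneg _).trans (h2 0 (by simp))
  rw [h1]
  refine (norm_sub_le _ _).trans ?_
  have h3 := h2 _ hv
  have h4 := h2 _ hu
  linarith

end Pool.Agent.P8H4.GL
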